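import Pool.Agent.Helper54.UN.St

/-!
Project UN part C (MP_d629b1_an), module RAD: radii.
-/

set_option autoImplicit false

noncomputable section

namespace Pool.Agent.Helper40.UNC

open Set Filter Topology Pool.Agent.Helper71.UN Pool.Agent.Helper54.UN
open scoped ComplexConjugate

private theorem dt_abs (p q : ℂ) : |dt p q| ≤ ‖p‖ * ‖q‖ := by
  unfold dt
  calc |(q * conj p).im| ≤ ‖q * conj p‖ := Complex.abs_im_le_norm _
    _ = ‖p‖ * ‖q‖ := by rw [norm_mul, Complex.norm_conj, mul_comm]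

private theorem norm_om : ‖om‖ = 1 := by
  have h : ‖om‖ ^ 2 = 1 := by
    rw [Complex.sq_norm, Complex.normSq_apply, om_re, om_im]
    nlinarith [s3]
  have h0 : 0 ≤ ‖om‖ := norm_nonneg _
  nlinarith

private theorem norm_om1 : ‖1 + om‖ = 1 := by
  have h : ‖1 + om‖ ^ 2 = 1 := by
    rw [Complex.sq_norm, Complex.normSq_apply, Complex.add_re, Complex.add_im, om_re, om_im,
      Complex.one_re, Complex.one_im]
    nlinarith [s3]
  have h0 : 0 ≤ ‖1 + om‖ := norm_nonneg _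
  nlinarith

private theorem l1 (a x : ℂ) : lf 1 a x = a.im + dt (a - 1) x := by
  rw [lf_eq, dt_eq]
  simp
  ring

private theorem l2 (a x : ℂ) :
    lf a om x = (a.re * (Real.sqrt 3 / 2) + a.im / 2) + dt (om - a) x := by
  rw [lf_eq, dt_eq]
  simp [om_re, om_im]
  ring

private theorem l3 (x : ℂ) : lf om (-1) x = Real.sqrt 3 / 2 + dt (-(1 + om)) x := by
  rw [lf_eq, dt_eq]
  simp [om_re, om_im]
  ring

private theorem dt_neg_right (p x : ℂ) : dt p (-x) = - dt p x := by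
  rw [dt_eq, dt_eq]
  simp
  ring

private theorem near (η : ℝ) (a : ℂ) (h : ‖a - (1 + om)‖ ≤ η) :
    |a.re - 1 / 2| ≤ η ∧ |a.im - Real.sqrt 3 / 2| ≤ η ∧ ‖a - 1‖ ≤ 1 + η ∧ ‖om - a‖ ≤ 1 + η := by
  refine ⟨?_, ?_, ?_, ?_⟩
  · have h1 := (Complex.abs_re_le_norm (a - (1 + om))).trans h
    have h2 : (a - (1 + om)).re = a.re - 1 / 2 := by
      simp [om_re]
      ring
    rwa [h2] at h1
  · have h1 := (Complex.abs_im_le_norm (a - (1 + om))).trans h
    have h2 : (a - (1 + om)).im = a.im - Real.sqrt 3 / 2 := by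
      simp [om_im]
    rwa [h2] at h1
  · have h1 : a - 1 = (a - (1 + om)) + om := by ring
    rw [h1]
    have := norm_add_le (a - (1 + om)) om
    rw [norm_om] at this
    linarith
  · have h1 : om - a = -(a - (1 + om)) + (-1) := by ring
    rw [h1]
    have := norm_add_le (-(a - (1 + om))) (-1 : ℂ)
    rw [norm_neg, norm_neg, norm_one] at this
    linarith

private theorem inner_part (ε η : ℝ) (hε : 0 < ε) (hε1 : ε ≤ 1 / 10) (hη : η = ε / 100) (a x : ℂ)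
    (ha : ‖a - (1 + om)‖ ≤ η) (hx : ‖x‖ ≤ Real.sqrt 3 / 2 - ε) :
    0 < lf 1 a x ∧ 0 < lf a om x ∧ 0 < lf om (-1) x := by
  obtain ⟨h1, h2, h3, h4⟩ := near η a ha
  have g1 := s3_gt
  have g2 := s3_lt
  have hη0 : 0 < η := by rw [hη]; positivity
  have hx0 := norm_nonneg x
  rw [abs_le] at h1 h2
  refine ⟨?_, ?_, ?_⟩
  · rw [l1]
    have h5 := dt_abs (a - 1) x
    have h6 : ‖a - 1‖ * ‖x‖ ≤ (1 + η) * (Real.sqrt 3 / 2 - ε) :=
      mul_le_mul h3 hx hx0 (by linarith)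
    have h7 := (abs_le.1 (h5.trans h6)).1
    nlinarith
  · rw [l2]
    have h5 := dt_abs (om - a) x
    have h6 : ‖om - a‖ * ‖x‖ ≤ (1 + η) * (Real.sqrt 3 / 2 - ε) :=
      mul_le_mul h4 hx hx0 (by linarith)
    have h7 := (abs_le.1 (h5.trans h6)).1
    have h8 : Real.sqrt 3 / 2 - 2 * η ≤ a.re * (Real.sqrt 3 / 2) + a.im / 2 := by
      nlinarith [s3]
    nlinarith
  · rw [l3]
    have h5 := dt_abs (-(1 + om)) x
    rw [norm_neg, norm_om1, one_mul] at h5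
    have h7 := (abs_le.1 (h5.trans hx)).1
    linarith

private theorem outer_part (ε η : ℝ) (hε : 0 < ε) (hε1 : ε ≤ 1 / 10) (hη : η = ε / 100)
    (b x : ℂ) (hb : ‖b - (1 + om)‖ ≤ η) (hx : 1 + ε ≤ ‖x‖) : ouH b x := by
  by_contra hno
  unfold ouH at hno
  push Not at hno
  obtain ⟨⟨p1, p2, p3⟩, p4, p5, p6⟩ := hno
  obtain ⟨h1, h2, h3, h4⟩ := near η b hb
  have g1 := s3_gt
  have g2 := s3_lt
  have hη0 : 0 < η := by rw [hη]; positivity
  rw [abs_le] at h1 h2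
  rw [l1] at p1 p4
  rw [l2] at p2 p5
  rw [l3] at p3 p6
  rw [dt_neg_right] at p4 p5 p6
  obtain ⟨M, hM⟩ : ∃ M : ℝ, M = ‖x‖ := ⟨_, rfl⟩
  obtain ⟨A, hA⟩ : ∃ A : ℝ, A = x.im := ⟨_, rfl⟩
  obtain ⟨B, hB⟩ : ∃ B : ℝ, B = dt om x := ⟨_, rfl⟩
  have hM2 : M ^ 2 = 4 / 3 * (A ^ 2 + A * B + B ^ 2) := by
    rw [hM, hA, hB, Complex.sq_norm, Complex.normSq_apply, dt_eq, om_re, om_im]
    linear_combination (-(x.re ^ 2) / 3) * s3
  have hM0 : 0 < M := by rw [hM]; linarith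
  -- `B`
  have e1 : dt (b - 1) x = B + dt (b - (1 + om)) x := by
    rw [hB, dt_eq, dt_eq, dt_eq]
    simp
    ring
  have e2 : dt (om - b) x = - A - dt (b - (1 + om)) x := by
    rw [hA, dt_eq, dt_eq]
    simp
    ring
  have e3 : dt (-(1 + om)) x = - (A + B) := by
    rw [hA, hB, dt_eq, dt_eq]
    simp
    ring
  have e4 : |dt (b - (1 + om)) x| ≤ η * M := by
    rw [hM]
    exact (dt_abs _ _).trans (mul_le_mul_of_nonneg_right hb (norm_nonneg x))
  rw [abs_le] at e4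
  rw [e1] at p1 p4
  rw [e2] at p2 p5
  rw [e3] at p3 p6
  obtain ⟨m, hm⟩ : ∃ m : ℝ, m = Real.sqrt 3 / 2 + 2 * η + η * M := ⟨_, rfl⟩
  have hηM : 0 ≤ η * M := by positivity
  have q0 : b.re * (Real.sqrt 3 / 2) + b.im / 2 ≤ Real.sqrt 3 / 2 + 2 * η := by
    nlinarith [s3]
  have q1 : -m ≤ B := by linarith
  have q2 : B ≤ m := by linarith
  have q3 : -m ≤ A := by linarith
  have q4 : A ≤ m := by linarith
  have q5 : -m ≤ A + B := by linarith
  have q6 : A + B ≤ m := by linarith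
  have hm0 : 0 < m := by
    rw [hm]
    positivity
  have hq : A ^ 2 + A * B + B ^ 2 ≤ m ^ 2 := by
    have hA2 : A ^ 2 ≤ m ^ 2 := sq_le_sq' q3 q4
    have hB2 : B ^ 2 ≤ m ^ 2 := sq_le_sq' q1 q2
    have hAB : (A + B) ^ 2 ≤ m ^ 2 := sq_le_sq' q5 q6
    rcases le_total 0 (A * B) with h | h
    · nlinarith
    · rcases le_total (A ^ 2) (B ^ 2) with h5 | h5
      · -- `A ^ 2 + A B ≤ 0`
        have h6 : A ^ 2 ≤ - (A * B) := by
          have h7 : (A ^ 2) ^ 2 ≤ (-(A * B)) ^ 2 := by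
            have : A ^ 2 * A ^ 2 ≤ A ^ 2 * B ^ 2 := mul_le_mul_of_nonneg_left h5 (sq_nonneg _)
            nlinarith
          exact le_of_sq_le_sq h7 (by linarith)
        linarith
      · have h6 : B ^ 2 ≤ - (A * B) := by
          have h7 : (B ^ 2) ^ 2 ≤ (-(A * B)) ^ 2 := by
            have : B ^ 2 * B ^ 2 ≤ B ^ 2 * A ^ 2 := mul_le_mul_of_nonneg_left h5 (sq_nonneg _)
            nlinarith
          exact le_of_sq_le_sq h7 (by linarith)
        linarith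
  -- `c M ≤ m`
  have hcM : Real.sqrt 3 / 2 * M ≤ m := by
    have h5 : (Real.sqrt 3 / 2 * M) ^ 2 ≤ m ^ 2 := by
      have h6 : (Real.sqrt 3 / 2 * M) ^ 2 = 3 / 4 * M ^ 2 := by
        rw [mul_pow, div_pow, Real.sq_sqrt (by norm_num)]
        norm_num
      rw [h6, hM2]
      linarith
    exact le_of_sq_le_sq h5 hm0.le
  rw [← hM] at hx
  rw [hm] at hcM
  have h8 : M * (Real.sqrt 3 / 2 - η) ≤ Real.sqrt 3 / 2 + 2 * η := by linarith
  have h9 : (1 + ε) * (Real.sqrt 3 / 2 - η) ≤ M * (Real.sqrt 3 / 2 - η) :=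
    mul_le_mul_of_nonneg_right hx (by linarith)
  nlinarith

theorem hRAD : StRAD := by
  intro κ hκ1 hκ2
  have g1 := s3_gt
  have g2 := s3_lt
  have hκc : 1 < κ * (Real.sqrt 3 / 2) := by
    have h1 : 1 < (κ * (Real.sqrt 3 / 2)) ^ 2 := by
      have h2 : (κ * (Real.sqrt 3 / 2)) ^ 2 = 3 / 4 * κ ^ 2 := by
        rw [mul_pow, div_pow, Real.sq_sqrt (by norm_num)]
        ring
      rw [h2]
      linarith
    have h3 : 0 ≤ κ * (Real.sqrt 3 / 2) := by positivity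
    by_contra hneg
    push Not at hneg
    nlinarith
  obtain ⟨ε, hε⟩ : ∃ ε : ℝ, ε = min (1 / 10) ((κ * (Real.sqrt 3 / 2) - 1) / (2 * (κ + 1))) :=
    ⟨_, rfl⟩
  have hε0 : 0 < ε := by
    rw [hε]
    apply lt_min (by norm_num)
    apply div_pos (by linarith) (by linarith)
  have hε1 : ε ≤ 1 / 10 := by rw [hε]; exact min_le_left _ _
  have hε2 : ε ≤ (κ * (Real.sqrt 3 / 2) - 1) / (2 * (κ + 1)) := by rw [hε]; exact min_le_right _ _
  have hε3 : ε * (2 * (κ + 1)) ≤ κ * (Real.sqrt 3 / 2) - 1 := by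
    rwa [le_div_iff₀ (by linarith)] at hε2
  refine ⟨ε / 100, Real.sqrt 3 / 2 - ε, 1 + ε, by positivity, by linarith, by linarith, ?_,
    by linarith, ?_⟩
  · nlinarith
  · intro a b ha hb
    constructor
    · intro x hx
      exact ⟨inner_part ε (ε / 100) hε0 hε1 rfl a x ha hx,
        inner_part ε (ε / 100) hε0 hε1 rfl a (-x) ha (by rwa [norm_neg])⟩
    · intro x hx
      exact outer_part ε (ε / 100) hε0 hε1 rfl b x hb hx

end Pool.Agent.Helper40.UNC
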